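import Mathlib
import Pool.Agent.Helper317.Bounded

set_option autoImplicit false

/-!
# MP_c602ad_al : groups with a Noetherian group ring have bounded torsion

If the group ring of a group `G` over an infinite commutative domain (for instance over the
integers) is Noetherian, then the orders of the finite subgroups of `G` are bounded.

The proof goes through the Folner condition (Bartholdi), which is proved here from scratch, the
finiteness of the set of torsion elements with finitely many conjugates, and a comparison of
dimensions of restrictions of left ideals to Folner sets.
-/

namespace Pool.Agent.Results.MP_c602ad_al.BoundedTorsion

/-- If `R` is an infinite commutative domain and the group ring of `G` over `R` is Noetherian,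
then there is a common bound for the orders of the finite subgroups of `G`. -/
theorem result (R G : Type*) [CommRing R] [IsDomain R] [Infinite R] [Group G]
    [IsNoetherianRing (MonoidAlgebra R G)] :
    ∃ n : ℕ, ∀ H : Subgroup G, Finite H → Nat.card H ≤ n :=
  Pool.Agent.Helper317.bounded R G

end Pool.Agent.Results.MP_c602ad_al.BoundedTorsion
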