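import Mathlib
import Pool.Agent.Helper317.Coh.TriC

set_option autoImplicit false

/-!
# MP_c602ad_al : cohomology with group ring coefficients bounds subnormal series

Let the integral group ring `ℤG` be Noetherian and suppose that `Ext^n(ℤ, ℤG)` (the cohomology
group `H^n(G, ℤG)`) is not zero for some `n`; this is so, for instance, when `G` has finite
cohomological dimension or `ℤG` has finite injective dimension. Then every subnormal series of `G`
has at most `n` infinite factors, and `G` has a finite subnormal series each of whose factors is
finite, or cyclic, or not virtually polycyclic and simple, or not virtually polycyclic, residually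
finite and hereditarily just infinite. If `G` itself is not virtually polycyclic, then a factor `Q`
of one of the last two kinds occurs, and its integral group ring is again Noetherian. So Q1 is
reduced, for such `G`, to simple groups and to residually finite hereditarily just infinite groups.

The key point: if `N` is a normal subgroup of infinite index of a group `H ≤ G` and `ℤN` is
Noetherian, then every class of `Ext^i(ℤ, ℤG)` over `ℤH` restricts to zero over `ℤN`, since its
restriction is supported on finitely many cosets of `N` and is invariant under `H`. Together with
inflation and restriction this raises the first degree of non-vanishing by at least one at every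
infinite factor.
-/

namespace Pool.Agent.Results.MP_c602ad_al.CohomologicalSeries

open Pool.Agent.Helper317 Pool.Agent.Helper317.Coh

universe u

/-- If the integral group ring of `G` is Noetherian and `Ext^n(ℤ, ℤG)` is not zero, then every
subnormal series of `G` has at most `n` infinite factors, and `G` has a finite subnormal series
whose factors are finite, cyclic, or exotic (not virtually polycyclic, and simple or residually
finite and hereditarily just infinite); unless `G` is virtually polycyclic, some factor is exotic
with Noetherian integral group ring. -/
theorem result (G : Type u) [Group G] [IsNoetherianRing (MonoidAlgebra ℤ G)] (n : ℕ)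
    (hn : ∃ e : CategoryTheory.Abelian.Ext (triv G)
      (ModuleCat.of (MonoidAlgebra ℤ G) (MonoidAlgebra ℤ G)) n, e ≠ 0) :
    (∀ (k : ℕ) (c : ℕ → Subgroup G), c 0 = ⊥ → c k = ⊤ →
      (∀ i < k, c i ≤ c (i + 1) ∧ ((c i).subgroupOf (c (i + 1))).Normal) →
      {i : ℕ | i < k ∧ (c i).relIndex (c (i + 1)) = 0}.ncard ≤ n) ∧
    ∃ (k : ℕ) (c : ℕ → Subgroup G), c 0 = ⊥ ∧ c k = ⊤ ∧
      (∀ i < k, c i ≤ c (i + 1) ∧ ∃ _ : ((c i).subgroupOf (c (i + 1))).Normal,
        (Finite (c (i + 1) ⧸ (c i).subgroupOf (c (i + 1))) ∨
          IsCyclic (c (i + 1) ⧸ (c i).subgroupOf (c (i + 1))) ∨
          Exotic (c (i + 1) ⧸ (c i).subgroupOf (c (i + 1))))) ∧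
      (¬ VirtPolycyclic G → ∃ i < k, ∃ _ : ((c i).subgroupOf (c (i + 1))).Normal,
        Exotic (c (i + 1) ⧸ (c i).subgroupOf (c (i + 1))) ∧
        IsNoetherianRing (MonoidAlgebra ℤ (c (i + 1) ⧸ (c i).subgroupOf (c (i + 1))))) :=
  coh_series n hn

end Pool.Agent.Results.MP_c602ad_al.CohomologicalSeries
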