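import Mathlib
import Pool.Agent.Helper317.Sections

set_option autoImplicit false

/-!
# MP_c602ad_al : Noetherian integral group rings of finite Krull dimension

If the integral group ring of `G` is Noetherian and has finite Krull dimension (deviation of the
lattice of left ideals, Gabriel and Rentschler), then `G` has a finite subnormal series each of
whose factors is finite, or cyclic, or not virtually polycyclic and simple, or not virtually
polycyclic, residually finite and hereditarily just infinite. If `G` itself is not virtually
polycyclic then a factor of one of the last two kinds occurs, and the integral group ring of that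
factor is again Noetherian of finite Krull dimension. So for group rings of finite Krull dimension
question Q1 is reduced to simple groups and to residually finite hereditarily just infinite groups.

The key point is a maximum principle: for a finitely generated subgroup `F` with a normal subgroup
`K` of infinite index, right multiplication by a Laplacian of `F` is injective modulo the left
ideal of `K`, and its powers give a descending sequence of left ideals with all factors mapping
onto the permutation module of `G` on the cosets of `F`.
-/

namespace Pool.Agent.Results.MP_c602ad_al.FiniteKrullSeries

open Pool.Agent.Helper317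

/-- If the integral group ring of `G` is Noetherian of finite Krull dimension, then `G` has a finite
subnormal series whose factors are finite, cyclic, or exotic (not virtually polycyclic, and simple
or residually finite and hereditarily just infinite); unless `G` is virtually polycyclic, some
factor is exotic, with integral group ring again Noetherian of finite Krull dimension. -/
theorem result (G : Type*) [Group G] [IsNoetherianRing (MonoidAlgebra ℤ G)]
    (hdim : FiniteKrullDim (MonoidAlgebra ℤ G)) :
    ∃ (n : ℕ) (c : ℕ → Subgroup G), c 0 = ⊥ ∧ c n = ⊤ ∧
      (∀ i < n, c i ≤ c (i + 1) ∧ ∃ _ : ((c i).subgroupOf (c (i + 1))).Normal,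
        (Finite (c (i + 1) ⧸ (c i).subgroupOf (c (i + 1))) ∨
          IsCyclic (c (i + 1) ⧸ (c i).subgroupOf (c (i + 1))) ∨
          Exotic (c (i + 1) ⧸ (c i).subgroupOf (c (i + 1))))) ∧
      (¬ VirtPolycyclic G → ∃ i < n, ∃ _ : ((c i).subgroupOf (c (i + 1))).Normal,
        Exotic (c (i + 1) ⧸ (c i).subgroupOf (c (i + 1))) ∧
        IsNoetherianRing (MonoidAlgebra ℤ (c (i + 1) ⧸ (c i).subgroupOf (c (i + 1)))) ∧
        FiniteKrullDim (MonoidAlgebra ℤ (c (i + 1) ⧸ (c i).subgroupOf (c (i + 1))))) :=
  finite_krull_series' hdim

end Pool.Agent.Results.MP_c602ad_al.FiniteKrullSeries
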