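import Mathlib
import Pool.Agent.Helper317.Coh.TriC

set_option autoImplicit false

/-!
# MP_c602ad_al : left orders, prime ideals, cohomology and Noetherian integral group rings

Let the integral group ring of `G` be Noetherian and let `G` not be virtually polycyclic. Then one
of the following holds.

* `G` has a descending sequence of normal subgroups `D 0 = G, D 1, D 2, ...` with infinite factors
  and virtually polycyclic quotients `G ⧸ D n`, such that the kernels of the homomorphisms from
  the integral group ring of `G` to those of the groups `G ⧸ D n` form a strictly descending
  infinite chain of prime ideals; moreover `Ext^i(ℤ, ℤG) = 0` (that is, `H^i(G, ℤG) = 0`) for all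
  `i`.
* `G` has an infinite subgroup `H` such that no subgroup of finite index of `H` has a nontrivial
  left-orderable quotient, and `H` has a section `Q` with the same property which is not virtually
  polycyclic, is simple or residually finite and hereditarily just infinite, and has Noetherian
  integral group ring.

In particular, suppose that every infinite subgroup of `G` has a subgroup of finite index with a
nontrivial left-orderable quotient (for example that `G` is left-orderable), and that the integral
group ring of `G` is Noetherian. If it satisfies the descending chain condition on prime ideals, or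
if `Ext^i(ℤ, ℤG)` is not zero for some `i`, then `G` is virtually polycyclic.
-/

namespace Pool.Agent.Results.MP_c602ad_al.PrimeChainOrSection

open Pool.Agent.Helper317 Pool.Agent.Helper317.Coh

universe u

/-- If the integral group ring of `G` is Noetherian and `G` is not virtually polycyclic, then either
`G` has virtually polycyclic quotients giving an infinite strictly descending chain of prime ideals
of the group ring and all groups `Ext^i(ℤ, ℤG)` are zero, or `G` has an infinite subgroup `H` none
of whose finite-index subgroups has a nontrivial left-orderable quotient, with an exotic section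
having the same property. -/
theorem result (G : Type u) [Group G] [IsNoetherianRing (MonoidAlgebra ℤ G)]
    (hG : ¬ VirtPolycyclic G) :
    ((∃ (D : ℕ → Subgroup G) (_ : ∀ n, (D n).Normal), D 0 = ⊤ ∧
      ∀ n, VirtPolycyclic (G ⧸ D n) ∧ (D (n + 1)).relIndex (D n) = 0 ∧
        IsPrimeTwoSided (kerQ (D n)) ∧ kerQ (D (n + 1)) < kerQ (D n)) ∧
      ∀ (i : ℕ) (e : CategoryTheory.Abelian.Ext (triv G)
        (ModuleCat.of (MonoidAlgebra ℤ G) (MonoidAlgebra ℤ G)) i), e = 0) ∨
    (∃ H K P : Subgroup G, Infinite H ∧ NoLO H ∧ K ≤ P ∧ P ≤ H ∧
      ∃ _ : (K.subgroupOf P).Normal, Exotic (P ⧸ K.subgroupOf P) ∧ NoLO (P ⧸ K.subgroupOf P) ∧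
        IsNoetherianRing (MonoidAlgebra ℤ (P ⧸ K.subgroupOf P))) :=
  chain_or_section' G hG

end Pool.Agent.Results.MP_c602ad_al.PrimeChainOrSection
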